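import Mathlib

/-! Sequences over a commutative ring as a module over polynomials (shift operator). -/

namespace Pool.Agent.RP28b

open Polynomial

section Shift
variable {R : Type*} [CommRing R]

/-- The shift operator. -/
def T (R : Type*) [CommRing R] : Module.End R (ℕ → R) where
  toFun f n := f (n + 1)
  map_add' _ _ := rfl
  map_smul' _ _ := rfl

/-- Action of a polynomial through the shift. -/
noncomputable def act (f : R[X]) : Module.End R (ℕ → R) := aeval (T R) f

lemma act_mul (f g : R[X]) (s : ℕ → R) : act (f * g) s = act f (act g s) := by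
  simp [act, map_mul]

lemma act_comm (f g : R[X]) (s : ℕ → R) : act f (act g s) = act g (act f s) := by
  rw [← act_mul, mul_comm, act_mul]

lemma act_add (f g : R[X]) (s : ℕ → R) : act (f + g) s = act f s + act g s := by
  simp [act, map_add]

lemma act_sub (f g : R[X]) (s : ℕ → R) : act (f - g) s = act f s - act g s := by
  simp [act, map_sub]

lemma act_one (s : ℕ → R) : act 1 s = s := by
  simp [act]

lemma act_X_pow (a : ℕ) (s : ℕ → R) (n : ℕ) : act (X ^ a : R[X]) s n = s (n + a) := by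
  induction a generalizing n with
  | zero => simp [act]
  | succ a ih =>
    rw [pow_succ', act_mul]
    have : act (X : R[X]) (act (X ^ a) s) n = act (X ^ a) s (n + 1) := by
      simp [act, T]
    rw [this, ih]
    congr 1; ring

lemma act_X_pow_sub_one (a : ℕ) (s : ℕ → R) (n : ℕ) :
    act (X ^ a - 1 : R[X]) s n = s (n + a) - s n := by
  rw [act_sub, act_one, Pi.sub_apply, act_X_pow]

lemma act_X_sub_one (s : ℕ → R) (n : ℕ) :
    act (X - 1 : R[X]) s n = s (n + 1) - s n := by
  have := act_X_pow_sub_one 1 s n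
  rwa [pow_one] at this

lemma act_geom (a : ℕ) (s : ℕ → R) (n : ℕ) :
    act (∑ i ∈ Finset.range a, X ^ i : R[X]) s n = ∑ i ∈ Finset.range a, s (n + i) := by
  have h : act (∑ i ∈ Finset.range a, X ^ i : R[X]) s
      = ∑ i ∈ Finset.range a, act (X ^ i : R[X]) s := by
    simp [act, map_sum]
  rw [h, Finset.sum_apply]
  exact Finset.sum_congr rfl fun i _ => act_X_pow i s n

/-- Decomposition along pairwise comaximal factors. -/
lemma dec {ι : Type*} [DecidableEq ι] (Q : Finset ι) (Φ : ι → R[X]) (E : R[X])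
    (hE : ∀ q ∈ Q, IsCoprime (Φ q) E)
    (hP : ∀ q ∈ Q, ∀ q' ∈ Q, q ≠ q' → IsCoprime (Φ q) (Φ q')) (s : ℕ → R)
    (hs : act (E * ∏ q ∈ Q, Φ q) s = 0) :
    ∃ (V : ι → ℕ → R) (A : ℕ → R), act E A = 0 ∧ (∀ q ∈ Q, act (Φ q) (V q) = 0) ∧
      s = A + ∑ q ∈ Q, V q := by
  induction Q using Finset.induction_on generalizing s with
  | empty => exact ⟨fun _ _ => 0, s, by simpa using hs, by simp, by simp⟩
  | insert q0 Q hq ih =>
    have hcop : IsCoprime (Φ q0) (E * ∏ q ∈ Q, Φ q) := by
      apply IsCoprime.mul_right (hE q0 (Finset.mem_insert_self _ _))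
      apply IsCoprime.prod_right
      intro q' hq'
      exact hP q0 (Finset.mem_insert_self _ _) q' (Finset.mem_insert_of_mem hq')
        (fun h => hq (h ▸ hq'))
    obtain ⟨a, b, hab⟩ := hcop
    set W := E * ∏ q ∈ Q, Φ q with hW
    have hs' : act (Φ q0 * W) s = 0 := by
      rw [Finset.prod_insert hq] at hs
      have : Φ q0 * W = E * (Φ q0 * ∏ q ∈ Q, Φ q) := by rw [hW]; ring
      rw [this]; exact hs
    have h1 : act W (act (a * Φ q0) s) = 0 := by
      rw [← act_mul, show W * (a * Φ q0) = a * (Φ q0 * W) by ring, act_mul, hs', map_zero]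
    have h2 : act (Φ q0) (act (b * W) s) = 0 := by
      rw [← act_mul, show Φ q0 * (b * W) = b * (Φ q0 * W) by ring, act_mul, hs', map_zero]
    obtain ⟨V, A, hA, hV, hsum⟩ := ih
      (fun q hq' => hE q (Finset.mem_insert_of_mem hq'))
      (fun q hq' q' hq'' h => hP q (Finset.mem_insert_of_mem hq') q'
        (Finset.mem_insert_of_mem hq'') h) (act (a * Φ q0) s) h1
    refine ⟨fun q => if q = q0 then act (b * W) s else V q, A, hA, ?_, ?_⟩
    · intro q hq'
      by_cases h : q = q0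
      · simp only [h, if_true]; exact h2
      · simp only [h, if_false]
        exact hV q ((Finset.mem_insert.mp hq').resolve_left h)
    · rw [Finset.sum_insert hq, if_pos rfl]
      have hrest : ∑ x ∈ Q, (if x = q0 then act (b * W) s else V x) = ∑ x ∈ Q, V x := by
        apply Finset.sum_congr rfl
        intro x hx
        rw [if_neg]
        rintro rfl
        exact hq hx
      rw [hrest]
      have e1 : s = act (a * Φ q0) s + act (b * W) s := by
        rw [← act_add, hab, act_one]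
      calc s = act (a * Φ q0) s + act (b * W) s := e1
        _ = (A + ∑ q ∈ Q, V q) + act (b * W) s := by rw [← hsum]
        _ = A + (act (b * W) s + ∑ q ∈ Q, V q) := by ring

/-- In characteristic `m` every product of `X^(a_j) - 1` kills only periodic sequences. -/
lemma dvd_pow_sub_one {S : Type*} [CommRing S] (m : ℕ) (hm : (m : S) = 0) (x : S) :
    (x - 1) ^ 2 ∣ x ^ m - 1 := by
  have h1 : x ^ m - 1 = (x - 1) * ∑ i ∈ Finset.range m, x ^ i := by
    rw [mul_comm]; exact (geom_sum_mul x m).symm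
  have h2 : (x - 1) ∣ ∑ i ∈ Finset.range m, x ^ i := by
    have h3 : ∑ i ∈ Finset.range m, x ^ i = ∑ i ∈ Finset.range m, (x ^ i - 1) := by
      rw [Finset.sum_sub_distrib]; simp [hm]
    rw [h3]
    apply Finset.dvd_sum
    intro i _
    simpa using sub_dvd_pow_sub_pow x 1 i
  rw [h1, pow_two]
  exact mul_dvd_mul_left _ h2

lemma dvd_pow_pow_sub_one {S : Type*} [CommRing S] (m : ℕ) (hm : (m : S) = 0) (x : S) (K : ℕ) :
    (x - 1) ^ (2 ^ K) ∣ x ^ (m ^ K) - 1 := by
  induction K with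
  | zero => simp
  | succ K ih =>
    have h1 := dvd_pow_sub_one m hm (x ^ (m ^ K))
    have h2 : ((x - 1) ^ (2 ^ K)) ^ 2 ∣ (x ^ (m ^ K) - 1) ^ 2 := pow_dvd_pow_of_dvd ih 2
    have h3 := h2.trans h1
    rw [← pow_mul, ← pow_mul, ← pow_succ, ← pow_succ] at h3
    exact h3

/-- The factors `X^a - 1`. -/
lemma prod_dvd {ι : Type*} (m : ℕ) (hm : (m : R[X]) = 0) (F : Finset ι) (a : ι → ℕ) (r N0 : ℕ)
    (hN : ∀ j ∈ F, a j ∣ N0) :
    ∃ K, ((X - 1) ^ r * ∏ j ∈ F, (X ^ (a j) - 1) : R[X]) ∣ X ^ (N0 * m ^ K) - 1 := by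
  obtain ⟨K, hK⟩ : ∃ K, r + F.card ≤ 2 ^ K := ⟨r + F.card, (Nat.lt_two_pow_self).le⟩
  refine ⟨K, ?_⟩
  have h1 : ((X - 1) ^ r * ∏ j ∈ F, (X ^ (a j) - 1) : R[X]) ∣ (X ^ N0 - 1) ^ (r + F.card) := by
    rw [pow_add]
    apply mul_dvd_mul
    · apply pow_dvd_pow_of_dvd
      simpa using sub_dvd_pow_sub_pow (X : R[X]) 1 N0
    · rw [← Finset.prod_const]
      apply Finset.prod_dvd_prod_of_dvd
      intro j hj
      obtain ⟨c, hc⟩ := hN j hj
      rw [hc, pow_mul]
      simpa using sub_dvd_pow_sub_pow ((X : R[X]) ^ (a j)) 1 c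
  have h2 : ((X ^ N0 - 1) ^ (r + F.card) : R[X]) ∣ (X ^ N0 - 1) ^ (2 ^ K) := pow_dvd_pow _ hK
  have h3 := dvd_pow_pow_sub_one m hm ((X : R[X]) ^ N0) K
  rw [← pow_mul] at h3
  exact (h1.trans h2).trans h3

lemma act_dvd {f g : R[X]} (h : f ∣ g) (s : ℕ → R) (hs : act f s = 0) : act g s = 0 := by
  obtain ⟨c, rfl⟩ := h
  rw [mul_comm, act_mul, hs, map_zero]

/-- comaximality of the cyclotomic-type factor and `X^J - 1`. -/
lemma coprime_geom (N J : ℕ) (hNJ : Nat.Coprime N J) (hN : IsUnit (N : R)) :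
    IsCoprime (∑ i ∈ Finset.range N, X ^ i : R[X]) (X ^ J - 1) := by
  rw [← Ideal.isCoprime_span_singleton_iff, Ideal.isCoprime_iff_sup_eq, ← Ideal.span_union]
  by_contra hne
  set I := Ideal.span ({∑ i ∈ Finset.range N, X ^ i} ∪ {X ^ J - 1} : Set R[X]) with hI
  have hΦ : (∑ i ∈ Finset.range N, X ^ i : R[X]) ∈ I := Ideal.subset_span (by simp)
  have hJ : (X ^ J - 1 : R[X]) ∈ I := Ideal.subset_span (by simp)
  have hN' : (X ^ N - 1 : R[X]) ∈ I := by
    rw [← geom_sum_mul]
    exact I.mul_mem_right _ hΦ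
  have q1 : (Ideal.Quotient.mk I X) ^ N = 1 := by
    have := Ideal.Quotient.eq_zero_iff_mem.mpr hN'
    rw [map_sub, map_pow, map_one, sub_eq_zero] at this
    exact this
  have q2 : (Ideal.Quotient.mk I X) ^ J = 1 := by
    have := Ideal.Quotient.eq_zero_iff_mem.mpr hJ
    rw [map_sub, map_pow, map_one, sub_eq_zero] at this
    exact this
  have q3 : (Ideal.Quotient.mk I X) = 1 := by
    have h1 : orderOf (Ideal.Quotient.mk I X) ∣ N := orderOf_dvd_of_pow_eq_one q1
    have h2 : orderOf (Ideal.Quotient.mk I X) ∣ J := orderOf_dvd_of_pow_eq_one q2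
    have h3 : orderOf (Ideal.Quotient.mk I X) ∣ 1 := by
      rw [← hNJ]; exact Nat.dvd_gcd h1 h2
    exact orderOf_eq_one_iff.mp (Nat.dvd_one.mp h3)
  have q4 : ((N : ℕ) : R[X] ⧸ I) = 0 := by
    have := Ideal.Quotient.eq_zero_iff_mem.mpr hΦ
    rw [map_sum] at this
    simp only [map_pow, q3, one_pow, Finset.sum_const, Finset.card_range, nsmul_eq_mul,
      mul_one] at this
    exact this
  apply hne
  have h5 : ((N : ℕ) : R[X]) ∈ I := by
    rw [← Ideal.Quotient.eq_zero_iff_mem, map_natCast]; exact q4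
  have h6 : IsUnit ((N : ℕ) : R[X]) := by
    have := hN.map (C : R →+* R[X])
    simpa using this
  exact Ideal.eq_top_of_isUnit_mem _ h5 h6

end Shift

end Pool.Agent.RP28b
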