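import Mathlib
import Pool.Agent.RP28b.Seq

/-! Generating function of the restricted partition function. -/

namespace Pool.Agent.RP28b

open Polynomial

/-- The number of partitions of `n` with all parts in `{1^d, ..., k^d}`, i.e. the number of
tuples `(x_1, ..., x_k)` of natural numbers with `∑ x_j j^d = n` (`x_j` is `x (j-1)` here). -/
noncomputable def p (d n k : ℕ) : ℕ :=
  Nat.card {x : Fin k → ℕ // ∑ j, x j * ((j : ℕ) + 1) ^ d = n}

section
variable (R : Type*) [CommRing R]

/-- `1/(1-X^a)`. -/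
noncomputable def G (a : ℕ) : PowerSeries R := PowerSeries.mk fun n => if a ∣ n then 1 else 0

lemma G_mul (a : ℕ) (ha : 0 < a) : G R a * (1 - PowerSeries.X ^ a) = 1 := by
  ext n
  rw [mul_sub, mul_one, map_sub, PowerSeries.coeff_mul_X_pow', PowerSeries.coeff_one]
  simp only [G, PowerSeries.coeff_mk]
  by_cases hn : n = 0
  · subst hn
    rw [if_pos (dvd_zero a), if_neg (by omega), if_pos rfl, sub_zero]
  · by_cases han : a ≤ n
    · have : a ∣ n ↔ a ∣ n - a := by
        constructor
        · intro h; exact Nat.dvd_sub h (dvd_refl a)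
        · intro h; have := Nat.dvd_add h (dvd_refl a); rwa [Nat.sub_add_cancel han] at this
      rw [if_pos han, if_neg hn, if_congr this rfl rfl, sub_self]
    · have : ¬ a ∣ n := fun h => han (Nat.le_of_dvd (Nat.pos_of_ne_zero hn) h)
      simp [han, this, hn]

/-- coefficient sequence of the product over the set `S` of roots of parts. -/
noncomputable def sq (d : ℕ) (S : Finset ℕ) (n : ℕ) : R :=
  PowerSeries.coeff n (∏ j ∈ S, G R (j ^ d))

lemma sq_step (d : ℕ) (S : Finset ℕ) (j : ℕ) (hj : j ∈ S) (h0 : 0 < j) (n : ℕ) :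
    sq R d S (n + j ^ d) - sq R d S n = sq R d (S.erase j) (n + j ^ d) := by
  have h1 : (∏ i ∈ S, G R (i ^ d)) * (1 - PowerSeries.X ^ (j ^ d))
      = ∏ i ∈ S.erase j, G R (i ^ d) := by
    rw [← Finset.mul_prod_erase S _ hj, mul_right_comm, G_mul R _ (pow_pos h0 d), one_mul]
  unfold sq
  rw [← h1, mul_sub, mul_one, map_sub, PowerSeries.coeff_mul_X_pow]

lemma act_prod (d : ℕ) (S F : Finset ℕ) (hF : F ⊆ S) (h0 : ∀ j ∈ F, 0 < j) (n : ℕ) :
    act (∏ j ∈ F, (X ^ (j ^ d) - 1) : R[X]) (sq R d S) n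
      = sq R d (S \ F) (n + ∑ j ∈ F, j ^ d) := by
  induction F using Finset.induction_on generalizing n with
  | empty => simp [act_one]
  | insert q F hq ih =>
    rw [Finset.prod_insert hq, act_mul, act_X_pow_sub_one,
      ih (fun x hx => hF (Finset.mem_insert_of_mem hx))
        (fun j hj => h0 j (Finset.mem_insert_of_mem hj)),
      ih (fun x hx => hF (Finset.mem_insert_of_mem hx))
        (fun j hj => h0 j (Finset.mem_insert_of_mem hj)),
      Finset.sum_insert hq]
    have hmem : q ∈ S \ F := Finset.mem_sdiff.mpr ⟨hF (Finset.mem_insert_self _ _), hq⟩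
    have h := sq_step R d (S \ F) q hmem (h0 q (Finset.mem_insert_self _ _))
      (n + ∑ j ∈ F, j ^ d)
    rw [show n + q ^ d + ∑ j ∈ F, j ^ d = n + ∑ j ∈ F, j ^ d + q ^ d by ring, h]
    rw [show S \ insert q F = (S \ F).erase q by
      ext x; simp only [Finset.mem_sdiff, Finset.mem_insert, Finset.mem_erase]; tauto]
    congr 1; ring

lemma sq_empty (d n : ℕ) (hn : 0 < n) : sq R d ∅ n = 0 := by
  simp [sq, PowerSeries.coeff_one, hn.ne']

lemma sq_singleton (d q n : ℕ) : sq R d {q} n = if q ^ d ∣ n then 1 else 0 := by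
  simp [sq, G]

lemma count_eq (d n k : ℕ) : (p d n k : R) = sq R d (Finset.Icc 1 k) n := by
  have h1 : ∏ j ∈ Finset.Icc 1 k, G R (j ^ d) = ∏ j : Fin k, G R (((j : ℕ) + 1) ^ d) := by
    rw [Fin.prod_univ_eq_prod_range (fun i => G R ((i + 1) ^ d)) k]
    rw [Finset.range_eq_Ico, Finset.prod_Ico_add' (fun i => G R (i ^ d)) 0 k 1]
    rfl
  unfold sq
  rw [h1, PowerSeries.coeff_prod]
  simp only [G, PowerSeries.coeff_mk]
  have h2 : ∀ l ∈ Finset.finsuppAntidiag (Finset.univ : Finset (Fin k)) n,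
      (∏ i : Fin k, if ((i : ℕ) + 1) ^ d ∣ l i then (1 : R) else 0)
        = if ∀ i : Fin k, ((i : ℕ) + 1) ^ d ∣ l i then 1 else 0 := by
    intro l _
    rw [Finset.prod_boole]
    simp
  rw [Finset.sum_congr rfl h2, Finset.sum_boole]
  congr 1
  unfold p
  have e : {x : Fin k → ℕ // ∑ j, x j * ((j : ℕ) + 1) ^ d = n} ≃
      {l // l ∈ (Finset.finsuppAntidiag (Finset.univ : Finset (Fin k)) n).filter
        (fun l => ∀ i : Fin k, ((i : ℕ) + 1) ^ d ∣ l i)} :=
    { toFun := fun x => ⟨Finsupp.equivFunOnFinite.symm (fun j => x.1 j * ((j : ℕ) + 1) ^ d), by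
        rw [Finset.mem_filter, Finset.mem_finsuppAntidiag]
        refine ⟨⟨?_, by simp⟩, ?_⟩
        · simpa using x.2
        · intro i; simp⟩
      invFun := fun l => ⟨fun j => l.1 j / ((j : ℕ) + 1) ^ d, by
        have hl := l.2
        rw [Finset.mem_filter, Finset.mem_finsuppAntidiag] at hl
        exact (Finset.sum_congr rfl fun i _ => Nat.div_mul_cancel (hl.2 i)).trans hl.1.1⟩
      left_inv := by
        intro x
        ext j
        simp
      right_inv := by
        intro l
        ext j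
        have hl := l.2
        rw [Finset.mem_filter, Finset.mem_finsuppAntidiag] at hl
        simpa using Nat.div_mul_cancel (hl.2 j) }
  rw [Nat.card_congr e, Nat.card_eq_fintype_card, Fintype.card_coe]

end

end Pool.Agent.RP28b
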