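import Mathlib

/-! Sumsets in `ZMod m` of sets that lie in no coset of a proper subgroup. -/

namespace Pool.Agent.RP28b

open Finset

/-- The ideal of translations preserving `C`. -/
def stabIdeal (m : ℕ) [NeZero m] (C : Finset (ZMod m)) : Ideal (ZMod m) where
  carrier := {h | ∀ x, x ∈ C ↔ x + h ∈ C}
  zero_mem' := by intro x; simp
  add_mem' := by
    intro a b ha hb x
    rw [ha x, hb (x + a), add_assoc]
  smul_mem' := by
    intro r h hh
    have key : ∀ n : ℕ, ∀ x, x ∈ C ↔ x + n • h ∈ C := by
      intro n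
      induction n with
      | zero => intro x; simp
      | succ n ih =>
        intro x
        rw [ih x, succ_nsmul, ← add_assoc]
        exact hh (x + n • h)
    intro x
    have := key r.val x
    rw [nsmul_eq_mul, ZMod.natCast_zmod_val] at this
    simpa [smul_eq_mul] using this

lemma stab_top (m : ℕ) [NeZero m] (C : Finset (ZMod m)) (D : Set (ZMod m))
    (hD : ∀ x ∈ D, x ∈ stabIdeal m C)
    (hℓ : ∀ ℓ : ℕ, ℓ.Prime → ℓ ∣ m → ∃ x ∈ D, ¬ ℓ ∣ x.val) : stabIdeal m C = ⊤ := by
  by_contra hne
  obtain ⟨M, hM, hIM⟩ := Ideal.exists_le_maximal _ hne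
  let _ : Field (ZMod m ⧸ M) := Ideal.Quotient.field M
  have : Finite (ZMod m ⧸ M) := inferInstance
  set ℓ := ringChar (ZMod m ⧸ M) with hℓdef
  have : CharP (ZMod m ⧸ M) ℓ := ringChar.charP _
  have hp : ℓ.Prime := CharP.char_is_prime (ZMod m ⧸ M) ℓ
  have hdvd : ℓ ∣ m := by
    rw [← CharP.cast_eq_zero_iff (ZMod m ⧸ M) ℓ m]
    have h1 : ((m : ℕ) : ZMod m) = 0 := ZMod.natCast_self m
    have h2 := congrArg (Ideal.Quotient.mk M) h1
    rwa [map_natCast, map_zero] at h2
  obtain ⟨x, hxD, hx⟩ := hℓ ℓ hp hdvd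
  apply hx
  have h3 : x ∈ M := hIM (hD x hxD)
  rw [← CharP.cast_eq_zero_iff (ZMod m ⧸ M) ℓ x.val]
  have h4 : Ideal.Quotient.mk M x = 0 := Ideal.Quotient.eq_zero_iff_mem.mpr h3
  rw [← ZMod.natCast_zmod_val x, map_natCast] at h4
  exact h4

open Classical in
/-- The set of attained sums. -/
noncomputable def att {ι : Type*} (m : ℕ) [NeZero m] (V : ι → ℕ → ZMod m) (Q : Finset ι) :
    Finset (ZMod m) :=
  univ.filter fun t => ∃ c : ι → ℕ, ∑ q ∈ Q, V q (c q) = t

lemma mem_att {ι : Type*} (m : ℕ) [NeZero m] (V : ι → ℕ → ZMod m) (Q : Finset ι) (t : ZMod m) :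
    t ∈ att m V Q ↔ ∃ c : ι → ℕ, ∑ q ∈ Q, V q (c q) = t := by
  simp [att]

lemma att_card {ι : Type*} [DecidableEq ι] (m : ℕ) [NeZero m] (V : ι → ℕ → ZMod m)
    (Q : Finset ι)
    (hV : ∀ q ∈ Q, ∀ ℓ : ℕ, ℓ.Prime → ℓ ∣ m → ∃ a b, ¬ ℓ ∣ (V q a - V q b).val) :
    min m (Q.card + 1) ≤ (att m V Q).card := by
  induction Q using Finset.induction_on with
  | empty =>
    have : (0 : ZMod m) ∈ att m V ∅ := by rw [mem_att]; exact ⟨fun _ => 0, by simp⟩
    have h1 : 1 ≤ (att m V ∅).card := Finset.card_pos.mpr ⟨0, this⟩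
    simp only [Finset.card_empty, zero_add]
    omega
  | insert q Q hq ih =>
    have ih' := ih (fun q' hq' => hV q' (Finset.mem_insert_of_mem hq'))
    have hsub : ∀ a : ℕ, (att m V Q).image (fun x => x + V q a) ⊆ att m V (insert q Q) := by
      intro a y hy
      rw [Finset.mem_image] at hy
      obtain ⟨x, hx, rfl⟩ := hy
      rw [mem_att] at hx ⊢
      obtain ⟨c, hc⟩ := hx
      refine ⟨fun i => if i = q then a else c i, ?_⟩
      rw [Finset.sum_insert hq, ← hc, add_comm]
      simp only [if_true]
      congr 1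
      apply Finset.sum_congr rfl
      intro i hi
      rw [if_neg]
      rintro rfl
      exact hq hi
    have hcard : ∀ a : ℕ, ((att m V Q).image (fun x => x + V q a)).card = (att m V Q).card := by
      intro a
      exact Finset.card_image_of_injective _ (add_left_injective _)
    by_cases hlt : (att m V Q).card < (att m V (insert q Q)).card
    · rw [Finset.card_insert_of_notMem hq]
      omega
    · have heq : ∀ a : ℕ, (att m V Q).image (fun x => x + V q a) = att m V (insert q Q) := by
        intro a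
        apply Finset.eq_of_subset_of_card_le (hsub a)
        rw [hcard a]; omega
      have htop : stabIdeal m (att m V Q) = ⊤ := by
        apply stab_top m _ {x | ∃ a b, x = V q a - V q b}
        · rintro x ⟨a, b, rfl⟩ y
          have h1 := heq a
          have h2 := heq b
          have h3 : ∀ z, z ∈ att m V (insert q Q) ↔ z - V q a ∈ att m V Q := by
            intro z
            rw [← h1, Finset.mem_image]
            constructor
            · rintro ⟨x, hx, rfl⟩; simpa using hx
            · intro hz; exact ⟨_, hz, by ring⟩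
          have h4 : ∀ z, z ∈ att m V (insert q Q) ↔ z - V q b ∈ att m V Q := by
            intro z
            rw [← h2, Finset.mem_image]
            constructor
            · rintro ⟨x, hx, rfl⟩; simpa using hx
            · intro hz; exact ⟨_, hz, by ring⟩
          have h5 := h3 (y + V q a)
          have h6 := h4 (y + V q a)
          rw [show y + V q a - V q a = y by ring] at h5
          rw [show y + V q a - V q b = y + (V q a - V q b) by ring] at h6
          rw [← h5, h6]
        · intro ℓ hp hdvd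
          obtain ⟨a, b, hab⟩ := hV q (Finset.mem_insert_self _ _) ℓ hp hdvd
          exact ⟨_, ⟨a, b, rfl⟩, hab⟩
      have huniv : att m V Q = univ := by
        have hne : (att m V Q).Nonempty := by
          refine ⟨∑ q ∈ Q, V q 0, ?_⟩
          rw [mem_att]; exact ⟨fun _ => 0, rfl⟩
        obtain ⟨x, hx⟩ := hne
        ext y
        simp only [Finset.mem_univ, iff_true]
        have h : y - x ∈ stabIdeal m (att m V Q) := by rw [htop]; trivial
        have := (h x).mp hx
        rwa [show x + (y - x) = y by ring] at this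
      have : (att m V (insert q Q)).card = m := by
        rw [← heq 0, hcard 0, huniv, Finset.card_univ, ZMod.card]
      omega

lemma all_sums {ι : Type*} [DecidableEq ι] (m : ℕ) [NeZero m] (V : ι → ℕ → ZMod m)
    (Q : Finset ι) (hQ : m ≤ Q.card + 1)
    (hV : ∀ q ∈ Q, ∀ ℓ : ℕ, ℓ.Prime → ℓ ∣ m → ∃ a b, ¬ ℓ ∣ (V q a - V q b).val)
    (t : ZMod m) : ∃ c : ι → ℕ, ∑ q ∈ Q, V q (c q) = t := by
  have h1 := att_card m V Q hV
  rw [min_eq_left hQ] at h1
  have h2 : att m V Q = univ := by
    apply Finset.eq_univ_of_card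
    rw [ZMod.card]
    apply le_antisymm _ h1
    calc (att m V Q).card ≤ (univ : Finset (ZMod m)).card := Finset.card_le_univ _
      _ = m := by rw [Finset.card_univ, ZMod.card]
  rw [← mem_att, h2]; exact Finset.mem_univ t

end Pool.Agent.RP28b
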