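import Mathlib
import Pool.Agent.RP28b.Seq
import Pool.Agent.RP28b.Gen
import Pool.Agent.RP28b.Sumset

/-! Decomposition of the partition sequence modulo `m` along the large primes. -/

namespace Pool.Agent.RP28b

open Polynomial

section
variable {R : Type*} [CommRing R]

lemma act_C_mul (a : R) (f : R[X]) (v : ℕ → R) (n : ℕ) : act (C a * f) v n = a * act f v n := by
  rw [act_mul]
  simp [act]

lemma act_mem (I : Ideal R) (f : R[X]) (v : ℕ → R) (h : ∀ n, v n ∈ I) (n : ℕ) :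
    act f v n ∈ I := by
  induction f using Polynomial.induction_on' with
  | add p q hp hq => rw [act_add]; exact I.add_mem hp hq
  | monomial i a =>
    rw [← C_mul_X_pow_eq_monomial, act_C_mul, act_X_pow]
    exact I.mul_mem_left _ (h _)

/-- `Φ_N = 1 + X + ... + X^(N-1)`. -/
noncomputable def Phi (R : Type*) [CommRing R] (N : ℕ) : R[X] := ∑ i ∈ Finset.range N, X ^ i

lemma Phi_mul (N : ℕ) : (X - 1) * Phi R N = X ^ N - 1 := by
  rw [mul_comm]; exact geom_sum_mul X N

/-- the complementary factor -/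
noncomputable def Efac (R : Type*) [CommRing R] (d : ℕ) (S Q : Finset ℕ) : R[X] :=
  (X - 1) ^ Q.card * ∏ j ∈ S \ Q, (X ^ (j ^ d) - 1)

lemma prod_Phi (d : ℕ) (F : Finset ℕ) :
    (X - 1) ^ F.card * ∏ q ∈ F, Phi R (q ^ d) = ∏ q ∈ F, (X ^ (q ^ d) - 1 : R[X]) := by
  rw [← Finset.prod_const, ← Finset.prod_mul_distrib]
  exact Finset.prod_congr rfl fun q _ => Phi_mul _

lemma D_eq (d : ℕ) (S Q : Finset ℕ) (hQ : Q ⊆ S) :
    Efac R d S Q * ∏ q ∈ Q, Phi R (q ^ d) = ∏ j ∈ S, (X ^ (j ^ d) - 1 : R[X]) := by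
  unfold Efac
  rw [mul_right_comm, prod_Phi, mul_comm, Finset.prod_sdiff hQ]

lemma W_eq (d : ℕ) (S Q : Finset ℕ) (hQ : Q ⊆ S) (q : ℕ) (hq : q ∈ Q) :
    Efac R d S Q * ∏ q' ∈ Q.erase q, Phi R (q' ^ d)
      = (X - 1) * ∏ j ∈ S \ {q}, (X ^ (j ^ d) - 1 : R[X]) := by
  have h1 : S \ {q} = (S \ Q) ∪ Q.erase q := by
    ext x
    simp only [Finset.mem_sdiff, Finset.mem_singleton, Finset.mem_union, Finset.mem_erase]
    constructor
    · rintro ⟨hx, hne⟩
      by_cases h : x ∈ Q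
      · exact Or.inr ⟨hne, h⟩
      · exact Or.inl ⟨hx, h⟩
    · rintro (⟨hx, hn⟩ | ⟨hne, h⟩)
      · exact ⟨hx, fun h => hn (h ▸ hq)⟩
      · exact ⟨hQ h, hne⟩
  have h2 : Disjoint (S \ Q) (Q.erase q) := by
    rw [Finset.disjoint_left]
    intro x hx hx'
    exact (Finset.mem_sdiff.mp hx).2 (Finset.mem_of_mem_erase hx')
  rw [h1, Finset.prod_union h2, ← prod_Phi (R := R) d (Q.erase q)]
  unfold Efac
  have h3 : Q.card = (Q.erase q).card + 1 := (Finset.card_erase_add_one hq).symm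
  rw [h3, pow_succ]
  ring

end

/-- Assumptions on the set of large primes. -/
def Good (m k : ℕ) (Q : Finset ℕ) : Prop :=
  ∀ q ∈ Q, q.Prime ∧ k < 2 * q ∧ q ≤ k ∧ ¬ q ∣ m

lemma cop_of_good {m k : ℕ} {Q : Finset ℕ} (h : Good m k Q) (d : ℕ) {q j : ℕ} (hq : q ∈ Q)
    (hj : j ∈ Finset.Icc 1 k) (hne : j ≠ q) : Nat.Coprime (q ^ d) (j ^ d) := by
  obtain ⟨hp, h1, h2, h3⟩ := h q hq
  apply Nat.Coprime.pow
  rw [Nat.Prime.coprime_iff_not_dvd hp]
  rintro ⟨c, hc⟩
  rw [Finset.mem_Icc] at hj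
  have hc1 : c = 0 ∨ c = 1 ∨ 2 ≤ c := by omega
  rcases hc1 with rfl | rfl | hc2
  · omega
  · exact hne (by omega)
  · nlinarith

lemma unit_of_good {m k : ℕ} {Q : Finset ℕ} (h : Good m k Q) (d : ℕ) {q : ℕ} (hq : q ∈ Q) :
    IsUnit ((q ^ d : ℕ) : ZMod m) := by
  obtain ⟨hp, h1, h2, h3⟩ := h q hq
  rw [ZMod.isUnit_iff_coprime]
  exact Nat.Coprime.pow_left d ((Nat.Prime.coprime_iff_not_dvd hp).mpr h3)

theorem decomposition (d m k : ℕ) (hd : 1 ≤ d) (hm : 2 ≤ m) (Q : Finset ℕ)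
    (hQ : Good m k Q) (hcard : m ≤ Q.card + 1) :
    ∃ (M : ℕ) (A : ℕ → ZMod m) (V : ℕ → ℕ → ZMod m), 0 < M ∧
      (∀ q ∈ Q, Nat.Coprime M (q ^ d)) ∧ (∀ n, A (n + M) = A n) ∧
      (∀ q ∈ Q, ∀ n, V q (n + q ^ d) = V q n) ∧
      (∀ q ∈ Q, ∀ ℓ : ℕ, ℓ.Prime → ℓ ∣ m → ∃ a b, ¬ ℓ ∣ (V q a - V q b).val) ∧
      ∀ n, (p d n k : ZMod m) = A n + ∑ q ∈ Q, V q n := by
  haveI : NeZero m := ⟨by omega⟩
  set R := ZMod m with hR
  set S := Finset.Icc 1 k with hS
  have hQS : Q ⊆ S := by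
    intro q hq
    obtain ⟨hp, h1, h2, h3⟩ := hQ q hq
    rw [hS, Finset.mem_Icc]; exact ⟨hp.one_lt.le, h2⟩
  have hQne : Q.Nonempty := by
    rw [← Finset.card_pos]; omega
  have hk : 1 ≤ k := by
    obtain ⟨q, hq⟩ := hQne
    have := hQS hq
    rw [hS, Finset.mem_Icc] at this; omega
  have hSpos : ∀ j ∈ S, 0 < j := by
    intro j hj; rw [hS, Finset.mem_Icc] at hj; omega
  set s : ℕ → R := sq R d S with hs
  -- D kills s
  have hD : act (Efac R d S Q * ∏ q ∈ Q, Phi R (q ^ d)) s = 0 := by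
    rw [D_eq d S Q hQS]
    ext n
    rw [hs, act_prod R d S S (Finset.Subset.refl _) hSpos, Finset.sdiff_self, Pi.zero_apply]
    apply sq_empty
    have h1 : 1 ∈ S := by rw [hS, Finset.mem_Icc]; exact ⟨le_refl _, hk⟩
    have h2 : (1 : ℕ) ^ d ≤ ∑ j ∈ S, j ^ d :=
      Finset.single_le_sum (f := fun j => j ^ d) (fun _ _ => Nat.zero_le _) h1
    rw [one_pow] at h2
    omega
  -- coprimality
  have hcE : ∀ q ∈ Q, IsCoprime (Phi R (q ^ d)) (Efac R d S Q) := by
    intro q hq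
    unfold Efac
    apply IsCoprime.mul_right
    · apply IsCoprime.pow_right
      have := coprime_geom (R := R) (q ^ d) 1 (by simp) (unit_of_good hQ d hq)
      rwa [pow_one] at this
    · apply IsCoprime.prod_right
      intro j hj
      rw [Finset.mem_sdiff] at hj
      exact coprime_geom (R := R) (q ^ d) (j ^ d)
        (cop_of_good hQ d hq hj.1 (fun h => hj.2 (h ▸ hq))) (unit_of_good hQ d hq)
  have hcP : ∀ q ∈ Q, ∀ q' ∈ Q, q ≠ q' → IsCoprime (Phi R (q ^ d)) (Phi R (q' ^ d)) := by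
    intro q hq q' hq' hne
    have h1 := coprime_geom (R := R) (q ^ d) (q' ^ d)
      (cop_of_good hQ d hq (hQS hq') (Ne.symm hne)) (unit_of_good hQ d hq)
    exact IsCoprime.of_isCoprime_of_dvd_right h1 (by rw [← Phi_mul]; exact dvd_mul_left _ _)
  obtain ⟨V, A, hA, hV, hsum⟩ := dec Q (fun q => Phi R (q ^ d)) (Efac R d S Q) hcE hcP s hD
  -- period of A
  have hm0 : ((m : ℕ) : R[X]) = 0 := by
    have h1 : ((m : ℕ) : R) = 0 := ZMod.natCast_self m
    have h2 := congrArg (C : R →+* R[X]) h1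
    rwa [map_natCast, map_zero] at h2
  obtain ⟨K, hK⟩ := prod_dvd (R := R) m hm0 (S \ Q) (fun j => j ^ d) Q.card
    (∏ j ∈ S \ Q, j ^ d) (fun j hj => Finset.dvd_prod_of_mem _ hj)
  refine ⟨(∏ j ∈ S \ Q, j ^ d) * m ^ K, A, V, ?_, ?_, ?_, ?_, ?_, ?_⟩
  · apply Nat.mul_pos
    · apply Finset.prod_pos
      intro j hj
      exact pow_pos (hSpos j (Finset.mem_sdiff.mp hj).1) d
    · exact pow_pos (by omega) K
  · intro q hq
    obtain ⟨hp, h1, h2, h3⟩ := hQ q hq
    apply Nat.Coprime.mul_left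
    · apply Nat.Coprime.prod_left
      intro j hj
      rw [Finset.mem_sdiff] at hj
      exact (cop_of_good hQ d hq hj.1 (fun h => hj.2 (h ▸ hq))).symm
    · apply Nat.Coprime.pow
      exact ((Nat.Prime.coprime_iff_not_dvd hp).mpr h3).symm
  · intro n
    have h1 := act_dvd hK A hA
    have h2 := congrFun h1 n
    rw [act_X_pow_sub_one, Pi.zero_apply, sub_eq_zero] at h2
    exact h2
  · intro q hq n
    have h1 : act (X ^ (q ^ d) - 1 : R[X]) (V q) = 0 := by
      rw [← Phi_mul, act_mul, hV q hq, map_zero]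
    have h2 := congrFun h1 n
    rw [act_X_pow_sub_one, Pi.zero_apply, sub_eq_zero] at h2
    exact h2
  · intro q hq ℓ hℓ hdvd
    by_contra hcon
    push Not at hcon
    haveI : Fact ℓ.Prime := ⟨hℓ⟩
    obtain ⟨hp, hq1, hq2, hq3⟩ := hQ q hq
    set π := ZMod.castHom hdvd (ZMod ℓ) with hπ
    have hval : ∀ x : ZMod m, ℓ ∣ x.val → π x = 0 := by
      intro x hx
      have h1 : π ((x.val : ℕ) : ZMod m) = ((x.val : ℕ) : ZMod ℓ) := map_natCast π _
      rw [ZMod.natCast_zmod_val] at h1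
      rw [h1, ZMod.natCast_eq_zero_iff]
      exact hx
    have hconst : ∀ a, π (V q a) = π (V q 0) := by
      intro a
      have := hval _ (hcon a 0)
      rw [map_sub, sub_eq_zero] at this
      exact this
    have hzero : π (V q 0) = 0 := by
      have h1 := congrFun (hV q hq) 0
      simp only [Phi] at h1
      rw [act_geom, Pi.zero_apply] at h1
      have h2 := congrArg π h1
      rw [map_sum, map_zero] at h2
      simp only [hconst] at h2
      rw [Finset.sum_const, Finset.card_range, nsmul_eq_mul] at h2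
      rcases mul_eq_zero.mp h2 with h3 | h3
      · exfalso
        rw [ZMod.natCast_eq_zero_iff] at h3
        have h4 := (Nat.prime_dvd_prime_iff_eq hℓ hp).mp (hℓ.dvd_of_dvd_pow h3)
        exact hq3 (h4 ▸ hdvd)
      · exact h3
    have hker : ∀ n, V q n ∈ RingHom.ker π := by
      intro n
      rw [RingHom.mem_ker, hconst n, hzero]
    set W := Efac R d S Q * ∏ q' ∈ Q.erase q, Phi R (q' ^ d) with hW
    have hWs : act W s = act W (V q) := by
      rw [hsum, map_add]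
      have h1 : act W A = 0 := by
        rw [hW, mul_comm, act_mul, hA, map_zero]
      have h2 : act W (∑ q' ∈ Q, V q') = act W (V q) := by
        rw [map_sum, ← Finset.add_sum_erase Q _ hq]
        have h3 : ∑ x ∈ Q.erase q, act W (V x) = 0 := by
          apply Finset.sum_eq_zero
          intro x hx
          have hx' : Phi R (x ^ d) ∣ W := by
            rw [hW]
            exact (Finset.dvd_prod_of_mem (fun q' => Phi R (q' ^ d)) hx).mul_left _
          exact act_dvd hx' _ (hV x (Finset.mem_of_mem_erase hx))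
        rw [h3, add_zero]
      rw [h1, h2, zero_add]
    set σ := ∑ j ∈ S \ {q}, j ^ d with hσ
    have hqd : 2 ≤ q ^ d := le_trans hp.two_le (Nat.le_self_pow (by omega) q)
    have hWn : ∀ n, act W s n = (if q ^ d ∣ n + 1 + σ then 1 else 0)
        - (if q ^ d ∣ n + σ then 1 else 0) := by
      intro n
      have hsub : S \ {q} ⊆ S := Finset.sdiff_subset
      have hsd : S \ (S \ {q}) = {q} := by
        rw [Finset.sdiff_sdiff_eq_self]
        rw [Finset.singleton_subset_iff]; exact hQS hq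
      rw [hW, W_eq d S Q hQS q hq, act_mul, act_X_sub_one, hs,
        act_prod R d S _ hsub (fun j hj => hSpos j (hsub hj)),
        act_prod R d S _ hsub (fun j hj => hSpos j (hsub hj)), hsd, sq_singleton, sq_singleton]
    have hfin := hWn (q ^ d * (σ + 1) - (σ + 1))
    have hge : σ + 1 ≤ q ^ d * (σ + 1) := Nat.le_mul_of_pos_left _ (by omega)
    rw [if_pos (by
        rw [show q ^ d * (σ + 1) - (σ + 1) + 1 + σ = q ^ d * (σ + 1) by omega]
        exact dvd_mul_right _ _), if_neg (by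
        rw [show q ^ d * (σ + 1) - (σ + 1) + σ = q ^ d * (σ + 1) - 1 by omega]
        intro hdv
        have h1 : q ^ d ∣ q ^ d * (σ + 1) - (q ^ d * (σ + 1) - 1) :=
          Nat.dvd_sub (dvd_mul_right _ _) hdv
        rw [show q ^ d * (σ + 1) - (q ^ d * (σ + 1) - 1) = 1 by omega] at h1
        have := Nat.dvd_one.mp h1
        omega), sub_zero, hWs] at hfin
    have h5 := act_mem (RingHom.ker π) W (V q) hker (q ^ d * (σ + 1) - (σ + 1))
    rw [hfin, RingHom.mem_ker, map_one] at h5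
    exact one_ne_zero h5
  · intro n
    rw [count_eq R d n k, ← hS, ← hs]
    have := congrFun hsum n
    rw [this, Pi.add_apply, Finset.sum_apply]

end Pool.Agent.RP28b
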