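import Mathlib

namespace Pool.Agent.RP28b

open Finset Filter

lemma card_block (f : ℕ → Prop) [DecidablePred f] (P M : ℕ)
    (hper : ∀ n, M ≤ n → (f (n + P) ↔ f n)) (j : ℕ) :
    ((Ico M (M + j * P)).filter f).card = j * ((Ico M (M + P)).filter f).card := by
  induction j with
  | zero => simp
  | succ j ih =>
    have hshift : ∀ j : ℕ, ((Ico (M + j * P) (M + j * P + P)).filter f).card
        = ((Ico M (M + P)).filter f).card := by
      intro j
      induction j with
      | zero => simp
      | succ j ih2 =>
        rw [← ih2]
        symm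
        apply Finset.card_bij (fun n _ => n + P)
        · intro a ha
          simp only [mem_filter, mem_Ico] at ha ⊢
          refine ⟨⟨?_, ?_⟩, ?_⟩
          · have := ha.1.1; nlinarith
          · have := ha.1.2; nlinarith
          · rw [hper a (by have := ha.1.1; nlinarith [Nat.zero_le (j * P)])]; exact ha.2
        · intro a _ b _ h; omega
        · intro b hb
          simp only [mem_filter, mem_Ico] at hb
          have h1 : M + j * P + P ≤ b := by have := hb.1.1; nlinarith
          refine ⟨b - P, ?_, by omega⟩
          simp only [mem_filter, mem_Ico]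
          have h2 : b < M + j * P + P + P := by have := hb.1.2; nlinarith
          have h3 : b - P + P = b := by omega
          refine ⟨⟨by omega, by omega⟩, ?_⟩
          rw [← hper (b - P) (by nlinarith [Nat.zero_le (j * P), Nat.le_sub_of_add_le h1]), h3]
          exact hb.2
    have hsplit : Ico M (M + (j + 1) * P) = Ico M (M + j * P) ∪ Ico (M + j * P) (M + j * P + P) := by
      rw [Finset.Ico_union_Ico_eq_Ico (by omega) (by omega)]
      congr 1; ring
    have hdisj : Disjoint ((Ico M (M + j * P)).filter f)
        ((Ico (M + j * P) (M + j * P + P)).filter f) := by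
      apply Finset.disjoint_filter_filter
      exact Finset.Ico_disjoint_Ico_consecutive _ _ _
    rw [hsplit, Finset.filter_union, Finset.card_union_of_disjoint hdisj, ih, hshift]
    ring

lemma dens (f : ℕ → Prop) [DecidablePred f] (P M : ℕ) (hP : 0 < P)
    (hper : ∀ n, M ≤ n → (f (n + P) ↔ f n)) :
    Tendsto (fun N : ℕ => (((Icc 1 N).filter f).card : ℝ) / N) atTop
      (nhds ((((Ico M (M + P)).filter f).card : ℝ) / P)) := by
  set g : ℕ := ((Ico M (M + P)).filter f).card with hg
  have hgP : g ≤ P := by
    rw [hg]; refine (Finset.card_filter_le _ _).trans ?_; simp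
  have key : ∀ N : ℕ, M ≤ N → 1 ≤ N →
      |(((Icc 1 N).filter f).card : ℝ) / N - (g : ℝ) / P| ≤ ((M : ℝ) + P + 1) / N := by
    intro N hN h1
    set j := (N - M) / P with hj
    have hj1 : j * P ≤ N - M := Nat.div_mul_le_self _ _
    have hj2 : N - M < (j + 1) * P := by
      have := Nat.lt_mul_div_succ (N - M) hP
      rw [← hj] at this
      calc N - M < P * (j + 1) := this
        _ = (j + 1) * P := by ring
    have hlow : j * g ≤ ((Icc 1 N).filter f).card + 1 := by
      rw [← card_block f P M hper j]
      have : (Ico M (M + j * P)).filter f ⊆ insert 0 ((Icc 1 N).filter f) := by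
        intro x hx
        simp only [mem_filter, mem_Ico, mem_insert, mem_Icc] at hx ⊢
        by_cases h0 : x = 0
        · left; exact h0
        · right; exact ⟨⟨by omega, by omega⟩, hx.2⟩
      exact (Finset.card_le_card this).trans (Finset.card_insert_le _ _)
    have hup : ((Icc 1 N).filter f).card ≤ M + (j + 1) * g := by
      rw [← card_block f P M hper (j + 1)]
      have : (Icc 1 N).filter f ⊆ (range M) ∪ (Ico M (M + (j + 1) * P)).filter f := by
        intro x hx
        simp only [mem_filter, mem_Ico, mem_union, mem_Icc, mem_range] at hx ⊢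
        by_cases h0 : x < M
        · left; exact h0
        · right; exact ⟨⟨by omega, by omega⟩, hx.2⟩
      refine (Finset.card_le_card this).trans ((Finset.card_union_le _ _).trans ?_)
      simp
    have hNpos : (0 : ℝ) < N := by exact_mod_cast h1
    have hPpos : (0 : ℝ) < P := by exact_mod_cast hP
    have hjr1 : (j : ℝ) * P ≤ N - M := by
      have : j * P + M ≤ N := by omega
      have : ((j * P + M : ℕ) : ℝ) ≤ (N : ℝ) := by exact_mod_cast this
      push_cast at this; linarith
    have hjr2 : (N : ℝ) - M < (j + 1) * P := by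
      have : N < (j + 1) * P + M := by omega
      have : (N : ℝ) < (((j + 1) * P + M : ℕ) : ℝ) := by exact_mod_cast this
      push_cast at this; linarith
    have hlowr : (j : ℝ) * g ≤ (((Icc 1 N).filter f).card : ℝ) + 1 := by exact_mod_cast hlow
    have hupr : (((Icc 1 N).filter f).card : ℝ) ≤ M + (j + 1) * g := by exact_mod_cast hup
    have hgPr : (g : ℝ) ≤ P := by exact_mod_cast hgP
    have hg0 : (0 : ℝ) ≤ g := by positivity
    have hr : (g : ℝ) / P ≤ 1 := by rw [div_le_one hPpos]; exact hgPr
    have hr0 : 0 ≤ (g : ℝ) / P := by positivity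
    have hgr : (g : ℝ) = (g / P) * P := (div_mul_cancel₀ (g : ℝ) hPpos.ne').symm
    set r : ℝ := (g : ℝ) / P with hrdef
    have hM0 : (0 : ℝ) ≤ M := by positivity
    have h3 : |(((Icc 1 N).filter f).card : ℝ) - r * N| ≤ (M : ℝ) + P + 1 := by
      rw [abs_le]
      constructor
      · -- j g ≥ r (N - M - P)
        have : (j : ℝ) * g = r * (j * P) := by rw [hgr]; ring
        have h5 : r * ((N : ℝ) - M - P) ≤ r * (j * P) :=
          mul_le_mul_of_nonneg_left (by linarith) hr0
        have h6 : r * (M + P) ≤ 1 * (M + P) := mul_le_mul_of_nonneg_right hr (by positivity)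
        nlinarith
      · have : ((j : ℝ) + 1) * g = r * (j * P) + g := by rw [hgr]; ring
        have h5 : r * (j * P) ≤ r * ((N : ℝ) - M) :=
          mul_le_mul_of_nonneg_left (by linarith) hr0
        have h6 : 0 ≤ r * M := mul_nonneg hr0 hM0
        nlinarith
    have h4 : (((Icc 1 N).filter f).card : ℝ) / N - r
        = ((((Icc 1 N).filter f).card : ℝ) - r * N) / N := by field_simp
    rw [h4, abs_div, abs_of_pos hNpos]
    exact div_le_div_of_nonneg_right h3 hNpos.le
  rw [tendsto_iff_norm_sub_tendsto_zero]
  have hlim : Tendsto (fun N : ℕ => ((M : ℝ) + P + 1) / N) atTop (nhds 0) :=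
    tendsto_const_div_atTop_nhds_zero_nat _
  refine squeeze_zero' (Eventually.of_forall fun _ => norm_nonneg _) ?_ hlim
  filter_upwards [eventually_ge_atTop (M + 1)] with N hN
  exact key N (by omega) (by omega)

end Pool.Agent.RP28b
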