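import Mathlib
import Pool.Agent.RP28b.Core
import Pool.Agent.RP28b.Dens

/-! Chinese remainder theorem and density. -/

namespace Pool.Agent.RP28b

open Filter

lemma periodic_congr {α : Type*} (f : ℕ → α) (M : ℕ) (hf : ∀ n, f (n + M) = f n) {a b : ℕ}
    (h : a ≡ b [MOD M]) : f a = f b := by
  have hp : Function.Periodic f M := hf
  rw [← hp.map_mod_nat a, ← hp.map_mod_nat b]
  exact congrArg f h

lemma crt (M : ℕ) (hM : 0 < M) (d : ℕ) (Q : Finset ℕ) (hQ0 : ∀ q ∈ Q, 0 < q)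
    (hMQ : ∀ q ∈ Q, Nat.Coprime M (q ^ d))
    (hQQ : ∀ q ∈ Q, ∀ q' ∈ Q, q ≠ q' → Nat.Coprime (q ^ d) (q' ^ d)) (z : ℕ) (c : ℕ → ℕ) :
    ∃ n, n < M * ∏ q ∈ Q, q ^ d ∧ n ≡ z [MOD M] ∧ ∀ q ∈ Q, n ≡ c q [MOD q ^ d] := by
  obtain ⟨x, hx⟩ := Nat.chineseRemainderOfFinset c (fun q => q ^ d) Q
    (fun q hq => (pow_pos (hQ0 q hq) d).ne')
    (fun q hq q' hq' hne => hQQ q hq q' hq' hne)
  have hcop : Nat.Coprime M (∏ q ∈ Q, q ^ d) := Nat.Coprime.prod_right fun q hq => hMQ q hq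
  obtain ⟨y, hy1, hy2⟩ := Nat.chineseRemainder hcop z x
  have hP : 0 < ∏ q ∈ Q, q ^ d := Finset.prod_pos fun q hq => pow_pos (hQ0 q hq) d
  refine ⟨y % (M * ∏ q ∈ Q, q ^ d), Nat.mod_lt _ (Nat.mul_pos hM hP), ?_, ?_⟩
  · exact ((Nat.mod_modEq y _).of_mul_right _).trans hy1
  · intro q hq
    have h1 : y % (M * ∏ q ∈ Q, q ^ d) ≡ y [MOD ∏ q ∈ Q, q ^ d] :=
      (Nat.mod_modEq y _).of_mul_left _
    have h2 := (h1.trans hy2).of_dvd (Finset.dvd_prod_of_mem (fun q => q ^ d) hq)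
    exact h2.trans (hx q hq)

theorem density (d m k : ℕ) (hd : 1 ≤ d) (hm : 2 ≤ m) (Q : Finset ℕ)
    (hQ : Good m k Q) (hcard : m ≤ Q.card + 1) (i : ℕ) :
    ∃ δ : ℝ, Tendsto (fun N : ℕ =>
      (((Finset.Icc 1 N).filter fun n => p d n k ≡ i [MOD m]).card : ℝ) / N) atTop (nhds δ) ∧
      1 / (∏ q ∈ Q, (q : ℝ) ^ d) ≤ δ := by
  have : NeZero m := ⟨by omega⟩
  obtain ⟨M, A, V, hM, hMQ, hA, hV, hnc, hsum⟩ := decomposition d m k hd hm Q hQ hcard
  set P := ∏ q ∈ Q, q ^ d with hP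
  have hQ0 : ∀ q ∈ Q, 0 < q := fun q hq => (hQ q hq).1.pos
  have hPpos : 0 < P := Finset.prod_pos fun q hq => pow_pos (hQ0 q hq) d
  have hper : ∀ n, (p d (n + M * P) k : ZMod m) = p d n k := by
    intro n
    rw [hsum, hsum]
    congr 1
    · exact periodic_congr A M hA (by
        rw [Nat.ModEq, Nat.add_mul_mod_self_left])
    · apply Finset.sum_congr rfl
      intro q hq
      apply periodic_congr (V q) (q ^ d) (hV q hq)
      have h1 : q ^ d ∣ M * P := (Finset.dvd_prod_of_mem (fun q => q ^ d) hq).mul_left M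
      obtain ⟨c, hc⟩ := h1
      rw [hc, Nat.ModEq, Nat.add_mul_mod_self_left]
  have hiff : ∀ n, p d n k ≡ i [MOD m] ↔ (p d n k : ZMod m) = (i : ZMod m) := by
    intro n; exact (ZMod.natCast_eq_natCast_iff _ _ _).symm
  have hdens := dens (fun n => p d n k ≡ i [MOD m]) (M * P) 0 (Nat.mul_pos hM hPpos)
    (fun n _ => by rw [hiff, hiff, hper])
  refine ⟨_, hdens, ?_⟩
  have hx : ∀ z : ℕ, ∃ n, n < M * P ∧ n ≡ z [MOD M] ∧ p d n k ≡ i [MOD m] := by
    intro z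
    obtain ⟨c, hc⟩ := all_sums m V Q hcard hnc ((i : ZMod m) - A z)
    obtain ⟨n, hn1, hn2, hn3⟩ := crt M hM d Q hQ0 hMQ
      (fun q hq q' hq' hne => cop_of_good hQ d hq
        (by
          obtain ⟨hp, h1, h2, h3⟩ := hQ q' hq'
          rw [Finset.mem_Icc]; exact ⟨hp.one_lt.le, h2⟩) (Ne.symm hne)) z c
    refine ⟨n, hn1, hn2, ?_⟩
    rw [hiff, hsum, periodic_congr A M hA hn2]
    have h1 : ∑ q ∈ Q, V q n = ∑ q ∈ Q, V q (c q) :=
      Finset.sum_congr rfl fun q hq => periodic_congr (V q) (q ^ d) (hV q hq) (hn3 q hq)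
    rw [h1, hc]; ring
  choose g hg1 hg2 hg3 using hx
  have hcount : M ≤ ((Finset.Ico 0 (0 + M * P)).filter
      fun n => p d n k ≡ i [MOD m]).card := by
    have h1 : (Finset.range M).card ≤ ((Finset.Ico 0 (0 + M * P)).filter
        fun n => p d n k ≡ i [MOD m]).card := by
      apply Finset.card_le_card_of_injOn g
      · intro z _
        simp only [Finset.coe_filter, Finset.mem_Ico, Set.mem_setOf_eq]
        exact ⟨⟨Nat.zero_le _, by rw [zero_add]; exact hg1 z⟩, hg3 z⟩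
      · intro z hz z' hz' hzz
        rw [Finset.coe_range, Set.mem_Iio] at hz hz'
        have h2 : z ≡ z' [MOD M] := (hg2 z).symm.trans (hzz ▸ hg2 z')
        exact Nat.ModEq.eq_of_lt_of_lt h2 hz hz'
    rwa [Finset.card_range] at h1
  have hPr : (∏ q ∈ Q, (q : ℝ) ^ d) = (P : ℝ) := by rw [hP]; push_cast; rfl
  rw [hPr]
  have hMr : (0 : ℝ) < M := by exact_mod_cast hM
  have hPr' : (0 : ℝ) < P := by exact_mod_cast hPpos
  rw [div_le_div_iff₀ hPr' (by push_cast; positivity)]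
  push_cast
  have hcr : (M : ℝ) ≤ (((Finset.Ico 0 (0 + M * P)).filter
      fun n => p d n k ≡ i [MOD m]).card : ℝ) := by exact_mod_cast hcount
  nlinarith

end Pool.Agent.RP28b
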