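import Mathlib

/-! Many primes in `(k/2, k]`. -/

namespace Pool.Agent.RP28b

open Nat Finset

/-- number of primes in `(n, 2n]` -/
noncomputable def NP (n : ℕ) : ℕ := ((Finset.Ioc n (2 * n)).filter Nat.Prime).card

lemma centralBinom_le (n : ℕ) (n_large : 2 < n) :
    centralBinom n ≤ (2 * n) ^ sqrt (2 * n) * 4 ^ (2 * n / 3) * (2 * n) ^ NP n := by
  have n_pos : 0 < n := (Nat.zero_le _).trans_lt n_large
  have n2_pos : 1 ≤ 2 * n := Nat.mul_pos (by norm_num) n_pos
  let f : ℕ → ℕ := fun x => x ^ n.centralBinom.factorization x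
  have hsmall : ∏ x ∈ Finset.range (2 * n / 3 + 1), f x
      ≤ (2 * n) ^ sqrt (2 * n) * 4 ^ (2 * n / 3) := by
    let S := {p ∈ Finset.range (2 * n / 3 + 1) | Nat.Prime p}
    have : ∏ x ∈ S, f x = ∏ x ∈ Finset.range (2 * n / 3 + 1), f x := by
      refine Finset.prod_filter_of_ne fun p _ h => ?_
      contrapose h; dsimp only [f]
      rw [factorization_eq_zero_of_not_prime n.centralBinom h, _root_.pow_zero]
    rw [← this, ← Finset.prod_filter_mul_prod_filter_not S (· ≤ sqrt (2 * n))]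
    apply mul_le_mul'
    · refine (Finset.prod_le_prod' fun p _ => (?_ : f p ≤ 2 * n)).trans ?_
      · exact pow_factorization_choose_le (mul_pos two_pos n_pos)
      have : (Finset.Icc 1 (sqrt (2 * n))).card = sqrt (2 * n) := by
        rw [card_Icc, Nat.add_sub_cancel]
      rw [Finset.prod_const]
      refine pow_right_mono₀ n2_pos ((Finset.card_le_card fun x hx => ?_).trans this.le)
      obtain ⟨h1, h2⟩ := Finset.mem_filter.1 hx
      exact Finset.mem_Icc.mpr ⟨(Finset.mem_filter.1 h1).2.one_lt.le, h2⟩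
    · refine le_trans ?_ (primorial_le_four_pow (2 * n / 3))
      refine (Finset.prod_le_prod' fun p hp => (?_ : f p ≤ p)).trans ?_
      · obtain ⟨h1, h2⟩ := Finset.mem_filter.1 hp
        refine (pow_right_mono₀ (Finset.mem_filter.1 h1).2.one_lt.le ?_).trans (pow_one p).le
        exact Nat.factorization_choose_le_one (sqrt_lt'.mp <| not_le.1 h2)
      refine Finset.prod_le_prod_of_subset_of_one_le' (Finset.filter_subset _ _) ?_
      exact fun p hp _ => (Finset.mem_filter.1 hp).2.one_lt.le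
  have hsplit : centralBinom n = (∏ x ∈ Finset.range (2 * n / 3 + 1), f x) *
      ∏ x ∈ (Finset.Ioc n (2 * n)).filter Nat.Prime, f x := by
    rw [← Finset.prod_union]
    · refine (Eq.trans ?_ n.prod_pow_factorization_centralBinom).symm
      apply Finset.prod_subset
      · intro x hx
        rw [Finset.mem_union, Finset.mem_range, Finset.mem_filter, Finset.mem_Ioc] at hx
        rw [Finset.mem_range]
        omega
      · intro x hx h2x
        rw [Finset.mem_range, Nat.lt_succ_iff] at hx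
        rw [Finset.mem_union, not_or, Finset.mem_range, Nat.lt_succ_iff, Finset.mem_filter,
          Finset.mem_Ioc] at h2x
        obtain ⟨h3, h4⟩ := h2x
        by_cases hp : x.Prime
        · have h5 : x ≤ n := by
            by_contra h6
            exact h4 ⟨⟨by omega, hx⟩, hp⟩
          rw [not_le, div_lt_iff_lt_mul three_pos, mul_comm x] at h3
          show x ^ n.centralBinom.factorization x = 1
          rw [factorization_centralBinom_of_two_mul_self_lt_three_mul n_large h5 h3, Nat.pow_zero]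
        · show x ^ n.centralBinom.factorization x = 1
          rw [factorization_eq_zero_of_not_prime n.centralBinom hp, Nat.pow_zero]
    · rw [Finset.disjoint_left]
      intro x hx hx'
      rw [Finset.mem_range] at hx
      rw [Finset.mem_filter, Finset.mem_Ioc] at hx'
      omega
  rw [hsplit]
  apply Nat.mul_le_mul hsmall
  refine (Finset.prod_le_prod' fun p _ => (?_ : f p ≤ 2 * n)).trans ?_
  · exact pow_factorization_choose_le (mul_pos two_pos n_pos)
  · rw [Finset.prod_const]; rfl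

lemma key_real (r : ℕ) (x : ℝ) (hx : (24 * ((r : ℝ) + 2)) ^ 4 < x) :
    (√x + (r : ℝ) + 1) * Real.log x < x / 6 := by
  set y := √(√x) with hy
  have hr : (0 : ℝ) ≤ r := by positivity
  have hx0 : 0 < x := lt_of_le_of_lt (by positivity) hx
  have hy2 : y ^ 2 = √x := Real.sq_sqrt (Real.sqrt_nonneg _)
  have hy4 : y ^ 4 = x := by
    rw [show y ^ 4 = (y ^ 2) ^ 2 by ring, hy2, Real.sq_sqrt hx0.le]
  have hy0 : 0 ≤ y := Real.sqrt_nonneg _
  have hyl : 24 * ((r : ℝ) + 2) < y := by
    rw [← hy4] at hx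
    exact lt_of_pow_lt_pow_left₀ 4 hy0 hx
  have hy1 : 1 < y := by linarith
  have hlog : Real.log x ≤ 4 * y := by
    rw [← hy4, Real.log_pow]
    have := Real.log_le_sub_one_of_pos (show 0 < y by linarith)
    push_cast
    linarith
  have h1 : √x + (r : ℝ) + 1 ≤ ((r : ℝ) + 2) * y ^ 2 := by
    rw [← hy2]
    have : 1 ≤ y ^ 2 := by nlinarith
    nlinarith
  have hlog0 : 0 ≤ Real.log x := Real.log_nonneg (by rw [← hy4]; nlinarith [pow_le_pow_left₀ (by norm_num : (0:ℝ) ≤ 1) hy1.le 4])
  calc (√x + (r : ℝ) + 1) * Real.log x ≤ (((r : ℝ) + 2) * y ^ 2) * (4 * y) := by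
        apply mul_le_mul h1 hlog hlog0 (by positivity)
    _ = (24 * ((r : ℝ) + 2)) * y ^ 3 / 6 := by ring
    _ < y * y ^ 3 / 6 := by
        have : 0 < y ^ 3 := by positivity
        have := mul_lt_mul_of_pos_right hyl this
        linarith
    _ = x / 6 := by rw [← hy4]; ring

lemma NP_large (r : ℕ) (n : ℕ) (hn : (24 * (r + 2)) ^ 4 < 2 * n) (hn2 : 4 ≤ n) : r < NP n := by
  by_contra hcon
  rw [not_lt] at hcon
  have h1 : 4 ^ n < n * n.centralBinom := Nat.four_pow_lt_mul_centralBinom n hn2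
  have h2 := centralBinom_le n (by omega)
  have h3 : (2 * n) ^ NP n ≤ (2 * n) ^ r := Nat.pow_le_pow_right (by omega) hcon
  have h4 : 4 ^ n < (2 * n) * ((2 * n) ^ sqrt (2 * n) * 4 ^ (2 * n / 3) * (2 * n) ^ r) := by
    calc 4 ^ n < n * n.centralBinom := h1
      _ ≤ (2 * n) * ((2 * n) ^ sqrt (2 * n) * 4 ^ (2 * n / 3) * (2 * n) ^ r) := by
        apply Nat.mul_le_mul (by omega)
        exact h2.trans (Nat.mul_le_mul_left _ h3)
  have h5 : (4 : ℝ) ^ n < ((2 * n : ℕ) : ℝ) * (((2 * n : ℕ) : ℝ) ^ sqrt (2 * n)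
      * 4 ^ (2 * n / 3) * ((2 * n : ℕ) : ℝ) ^ r) := by exact_mod_cast h4
  set x : ℝ := ((2 * n : ℕ) : ℝ) with hx
  have hx0 : 0 < x := by rw [hx]; exact_mod_cast (by omega : 0 < 2 * n)
  have h6 := Real.log_lt_log (by positivity) h5
  rw [Real.log_pow, Real.log_mul hx0.ne' (by positivity), Real.log_mul (by positivity)
    (by positivity), Real.log_mul (by positivity) (by positivity), Real.log_pow, Real.log_pow,
    Real.log_pow] at h6
  have hkey := key_real r x (by rw [hx]; exact_mod_cast hn)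
  have hs : ((sqrt (2 * n) : ℕ) : ℝ) ≤ √x := by rw [hx]; exact Real.nat_sqrt_le_real_sqrt
  have hd : ((2 * n / 3 : ℕ) : ℝ) ≤ x / 3 := by
    rw [hx]
    have := @Nat.cast_div_le ℝ _ _ _ (2 * n) 3
    exact_mod_cast this
  have hlogx : 0 ≤ Real.log x := Real.log_nonneg (by rw [hx]; exact_mod_cast (by omega : 1 ≤ 2 * n))
  have hlog4 : (1 : ℝ) ≤ Real.log 4 := by
    rw [Real.le_log_iff_exp_le (by norm_num)]
    have := Real.exp_one_lt_d9
    linarith
  have hnx : (n : ℝ) = x / 2 := by rw [hx]; push_cast; ring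
  rw [hnx] at h6
  have h7 : ((sqrt (2 * n) : ℕ) : ℝ) * Real.log x ≤ √x * Real.log x :=
    mul_le_mul_of_nonneg_right hs hlogx
  have h8 : ((2 * n / 3 : ℕ) : ℝ) * Real.log 4 ≤ (x / 3) * Real.log 4 :=
    mul_le_mul_of_nonneg_right hd (by linarith)
  have h9 : x / 6 * 1 ≤ x / 6 * Real.log 4 := mul_le_mul_of_nonneg_left hlog4 (by positivity)
  nlinarith

theorem many_primes (r : ℕ) :
    ∃ k0, ∀ k ≥ k0, r ≤ ((Finset.Ioc (k / 2) k).filter Nat.Prime).card := by
  refine ⟨2 * ((24 * (r + 2)) ^ 4 + 4) + 2, fun k hk => ?_⟩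
  have h1 : r < NP (k / 2) := by
    apply NP_large
    · have : (24 * (r + 2)) ^ 4 + 4 < k / 2 + 1 := by
        rw [Nat.lt_succ_iff]
        rw [Nat.le_div_iff_mul_le (by norm_num)]
        omega
      omega
    · rw [Nat.le_div_iff_mul_le (by norm_num)]
      omega
  refine h1.le.trans ?_
  unfold NP
  apply Finset.card_le_card
  apply Finset.filter_subset_filter
  intro x hx
  rw [Finset.mem_Ioc] at hx ⊢
  omega

end Pool.Agent.RP28b
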